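import Pool.Agent.H30.AddA

set_option autoImplicit false

namespace Pool.Agent.Results.MP_674062_gt.CH

open Pool.Agent.H30 Set Cardinal

/-- The continuum hypothesis refutes the countable additivity of `Split(Λ, Λ)`. -/
theorem result (hc : (𝔠 : Cardinal.{0}) = ℵ₁) :
    ¬ ∀ X : ℕ → Set ℝ,
      (∀ n : ℕ, ∀ 𝒰 : Set (Set ℝ), (∀ U ∈ 𝒰, IsOpen U) →
        (∀ x ∈ X n, {U : Set ℝ | U ∈ 𝒰 ∧ x ∈ U}.Infinite) →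
        ∃ 𝒱 : Set (Set ℝ), ∃ 𝒲 : Set (Set ℝ), 𝒱 ⊆ 𝒰 ∧ 𝒲 ⊆ 𝒰 ∧ Disjoint 𝒱 𝒲 ∧
          (∀ x ∈ X n, {U : Set ℝ | U ∈ 𝒱 ∧ x ∈ U}.Infinite) ∧
          (∀ x ∈ X n, {U : Set ℝ | U ∈ 𝒲 ∧ x ∈ U}.Infinite)) →
      (∀ 𝒰 : Set (Set ℝ), (∀ U ∈ 𝒰, IsOpen U) →
        (∀ x ∈ ⋃ n, X n, {U : Set ℝ | U ∈ 𝒰 ∧ x ∈ U}.Infinite) →
        ∃ 𝒱 : Set (Set ℝ), ∃ 𝒲 : Set (Set ℝ), 𝒱 ⊆ 𝒰 ∧ 𝒲 ⊆ 𝒰 ∧ Disjoint 𝒱 𝒲 ∧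
          (∀ x ∈ ⋃ n, X n, {U : Set ℝ | U ∈ 𝒱 ∧ x ∈ U}.Infinite) ∧
          (∀ x ∈ ⋃ n, X n, {U : Set ℝ | U ∈ 𝒲 ∧ x ∈ U}.Infinite)) := fun h => by
  obtain ⟨X, Y, V, h1, h2, h3, h4, h5, h6⟩ := Add.exists_real hc
  have e : ⋃ n : ℕ, (Nat.casesOn n X fun _ => Y : Set ℝ) = X ∪ Y := by
    rw [← union_iUnion_nat_succ]; simp [iUnion_const]
  obtain ⟨𝒱, 𝒲, e1, e2, e3, e4, e5⟩ := h (fun n => Nat.casesOn n X fun _ => Y)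
    (fun n => by cases n; exacts [h1.fam, h2.fam]) (range V) (forall_mem_range.2 h4) fun x hx =>
      ((h5 x (e ▸ hx)).image h3.injOn).mono (by rintro _ ⟨n, hn, rfl⟩; exact ⟨⟨n, rfl⟩, hn⟩)
  obtain ⟨x, hx, h7 | h7⟩ := h6 (V ⁻¹' 𝒲)ᶜ
  · obtain ⟨U, h8, h9⟩ := (e5 x (e ▸ hx)).nonempty
    obtain ⟨n, rfl⟩ := e2 h8
    exact h7 h9 h8
  · obtain ⟨U, h8, h9⟩ := (e4 x (e ▸ hx)).nonempty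
    obtain ⟨n, rfl⟩ := e1 h8
    exact disjoint_left.1 e3 h8 (not_not.1 (h7 h9))

end Pool.Agent.Results.MP_674062_gt.CH
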